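import Pool.Agent.Y746.OM.Stm

/-!
# Project OM: sums of reciprocals of least common multiples
-/

set_option autoImplicit false

namespace Pool.Agent.Y365.OM

open Finset

/-- the weighted sum of greatest common divisors -/
noncomputable def AA (N w : ℕ) : ℝ := ∑ a ∈ Icc 1 N, (Nat.gcd a w : ℝ) / a

theorem AA_nonneg (N w : ℕ) : 0 ≤ AA N w := Finset.sum_nonneg fun _ _ => by positivity

theorem harm (N : ℕ) : ∑ b ∈ Icc 1 N, (1 : ℝ) / b ≤ 1 + Real.log N := by
  have h := harmonic_le_one_add_log N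
  rw [harmonic_eq_sum_Icc] at h
  push_cast at h
  simpa [one_div] using h

/-- multiples of `e` -/
theorem sum_mult_le (N e : ℕ) (he : 1 ≤ e) (f : ℕ → ℝ) (hf : ∀ n, 0 ≤ f n) :
    ∑ a ∈ (Icc 1 N).filter (fun a => e ∣ a), f a ≤ ∑ b ∈ Icc 1 N, f (e * b) := by
  classical
  have hinj : Function.Injective (fun b : ℕ => e * b) := fun a b h =>
    Nat.eq_of_mul_eq_mul_left (by omega) h
  have h1 : ∑ b ∈ Icc 1 N, f (e * b) = ∑ c ∈ (Icc 1 N).image (fun b : ℕ => e * b), f c := by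
    rw [Finset.sum_image (fun a _ b _ h => hinj h)]
  rw [h1]
  apply Finset.sum_le_sum_of_subset_of_nonneg
  · intro a ha
    rw [Finset.mem_filter, Finset.mem_Icc] at ha
    obtain ⟨⟨h2, h3⟩, b, rfl⟩ := ha
    rw [Finset.mem_image]
    refine ⟨b, ?_, rfl⟩
    rw [Finset.mem_Icc]
    constructor
    · rcases Nat.eq_zero_or_pos b with h | h
      · subst h; omega
      · exact h
    · calc b = 1 * b := (one_mul b).symm
        _ ≤ e * b := Nat.mul_le_mul_right b he
        _ ≤ N := h3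
  · intro i _ _; exact hf i

theorem gcd_eq_sum (a w : ℕ) (hw : w ≠ 0) : (Nat.gcd a w : ℝ) =
    ∑ e ∈ w.divisors, if e ∣ a then (Nat.totient e : ℝ) else 0 := by
  have h1 : (Nat.gcd a w).divisors = w.divisors.filter (fun e => e ∣ a) := by
    ext e
    rw [Nat.mem_divisors, Finset.mem_filter, Nat.mem_divisors, Nat.dvd_gcd_iff]
    have h2 : Nat.gcd a w ≠ 0 := fun h => hw (Nat.eq_zero_of_gcd_eq_zero_right h)
    tauto
  rw [← Finset.sum_filter, ← h1]
  have := Nat.sum_totient (Nat.gcd a w)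
  exact_mod_cast this.symm

theorem gcd_eq_sum' (N n m : ℕ) (hn : 1 ≤ n) (hn' : n ≤ N) : (Nat.gcd n m : ℝ) =
    ∑ g ∈ Icc 1 N, if g ∣ n ∧ g ∣ m then (Nat.totient g : ℝ) else 0 := by
  have h1 : (Nat.gcd n m).divisors = (Icc 1 N).filter (fun g => g ∣ n ∧ g ∣ m) := by
    ext g
    rw [Nat.mem_divisors, Finset.mem_filter, Finset.mem_Icc, Nat.dvd_gcd_iff]
    have h2 : Nat.gcd n m ≠ 0 := fun h => by
      have := Nat.eq_zero_of_gcd_eq_zero_left h
      omega
    constructor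
    · rintro ⟨h3, -⟩
      refine ⟨⟨Nat.pos_of_dvd_of_pos h3.1 hn, ?_⟩, h3⟩
      exact (Nat.le_of_dvd hn h3.1).trans hn'
    · rintro ⟨-, h3⟩
      exact ⟨h3, h2⟩
  rw [← Finset.sum_filter, ← h1]
  have := Nat.sum_totient (Nat.gcd n m)
  exact_mod_cast this.symm

theorem card_div (w : ℕ) (hw : Squarefree w) : (w.divisors.card : ℝ) = 2 ^ w.primeFactors.card := by
  have hw0 : w ≠ 0 := hw.ne_zero
  rw [Nat.card_divisors hw0]
  have h1 : ∏ x ∈ w.primeFactors, (w.factorization x + 1) = 2 ^ w.primeFactors.card := by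
    rw [Finset.prod_congr rfl (g := fun _ => 2), Finset.prod_const]
    intro x hx
    have h2 := hw.natFactorization_le_one x
    have h3 : 0 < w.factorization x := by
      rw [Nat.mem_primeFactors] at hx
      exact hx.1.factorization_pos_of_dvd hw0 hx.2.1
    omega
  rw [h1]
  push_cast
  rfl

theorem AA_le (N w : ℕ) (hw : Squarefree w) :
    AA N w ≤ 2 ^ w.primeFactors.card * (1 + Real.log N) := by
  have hw0 : w ≠ 0 := hw.ne_zero
  have h1 : AA N w = ∑ e ∈ w.divisors, ∑ a ∈ (Icc 1 N).filter (fun a => e ∣ a),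
      (Nat.totient e : ℝ) / a := by
    unfold AA
    calc ∑ a ∈ Icc 1 N, (Nat.gcd a w : ℝ) / a
        = ∑ a ∈ Icc 1 N, ∑ e ∈ w.divisors, (if e ∣ a then (Nat.totient e : ℝ) / a else 0) := by
          refine Finset.sum_congr rfl fun a _ => ?_
          rw [gcd_eq_sum a w hw0, Finset.sum_div]
          refine Finset.sum_congr rfl fun e _ => ?_
          split_ifs <;> simp
      _ = ∑ e ∈ w.divisors, ∑ a ∈ Icc 1 N, (if e ∣ a then (Nat.totient e : ℝ) / a else 0) :=
          Finset.sum_comm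
      _ = _ := by
          refine Finset.sum_congr rfl fun e _ => ?_
          rw [Finset.sum_filter]
  rw [h1, ← card_div w hw]
  calc ∑ e ∈ w.divisors, ∑ a ∈ (Icc 1 N).filter (fun a => e ∣ a), (Nat.totient e : ℝ) / a
      ≤ ∑ e ∈ w.divisors, (1 + Real.log N) := by
        refine Finset.sum_le_sum fun e he => ?_
        have he1 : 1 ≤ e := Nat.pos_of_mem_divisors he
        have he0 : (0 : ℝ) < e := by exact_mod_cast he1
        refine (sum_mult_le N e he1 (fun a => (Nat.totient e : ℝ) / a)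
          (fun a => by positivity)).trans ?_
        refine le_trans ?_ (harm N)
        refine Finset.sum_le_sum fun b hb => ?_
        have hb0 : (0 : ℝ) < b := by
          have := (Finset.mem_Icc.1 hb).1
          exact_mod_cast this
        have h3 : (Nat.totient e : ℝ) ≤ e := by exact_mod_cast Nat.totient_le e
        push_cast
        rw [div_le_div_iff₀ (by positivity) hb0]
        nlinarith
    _ = (w.divisors.card : ℝ) * (1 + Real.log N) := by
        rw [Finset.sum_const, nsmul_eq_mul]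

theorem gcd_mul_le (g b w : ℕ) (hw : w ≠ 0) :
    (Nat.gcd (g * b) w : ℝ) ≤ (Nat.gcd g w : ℝ) * (Nat.gcd b w : ℝ) := by
  have h1 : Nat.gcd w (g * b) ∣ Nat.gcd w g * Nat.gcd w b := Nat.gcd_mul_right_dvd_mul_gcd w g b
  have h2 : 0 < Nat.gcd w g * Nat.gcd w b :=
    Nat.mul_pos (Nat.gcd_pos_of_pos_left _ (Nat.pos_of_ne_zero hw))
      (Nat.gcd_pos_of_pos_left _ (Nat.pos_of_ne_zero hw))
  have h3 := Nat.le_of_dvd h2 h1
  rw [Nat.gcd_comm w (g * b), Nat.gcd_comm w g, Nat.gcd_comm w b] at h3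
  exact_mod_cast h3

theorem BB_le (N g w : ℕ) (hg : 1 ≤ g) (hw : w ≠ 0) :
    ∑ n ∈ (Icc 1 N).filter (fun n => g ∣ n), (Nat.gcd n w : ℝ) / n ≤
      (Nat.gcd g w : ℝ) / g * AA N w := by
  refine (sum_mult_le N g hg (fun n => (Nat.gcd n w : ℝ) / n) (fun n => by positivity)).trans ?_
  unfold AA
  rw [Finset.mul_sum]
  refine Finset.sum_le_sum fun b hb => ?_
  have hb0 : (0 : ℝ) < b := by
    have := (Finset.mem_Icc.1 hb).1
    exact_mod_cast this
  have hg0 : (0 : ℝ) < g := by exact_mod_cast hg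
  push_cast
  rw [div_mul_div_comm]
  exact div_le_div_of_nonneg_right (gcd_mul_le g b w hw) (by positivity)

theorem t_LCM : Pool.Agent.Y746.OM.S_LCM := by
  intro u v N hu hv huv hN
  have hu0 : u ≠ 0 := hu.ne_zero
  have hv0 : v ≠ 0 := hv.ne_zero
  have hupos : (0 : ℝ) < u := by exact_mod_cast Nat.pos_of_ne_zero hu0
  have hvpos : (0 : ℝ) < v := by exact_mod_cast Nat.pos_of_ne_zero hv0
  have hlog : 0 ≤ 1 + Real.log N := by
    have : 0 ≤ Real.log N := Real.log_natCast_nonneg N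
    linarith
  -- pointwise bound
  have hpt : ∀ n ∈ Icc 1 N, ∀ m ∈ Icc 1 N, (1 : ℝ) / (Nat.lcm (n * u) (m * v) : ℝ) ≤
      ((Nat.gcd n m : ℝ) * ((Nat.gcd n v : ℝ) / n) * ((Nat.gcd m u : ℝ) / m)) / ((u : ℝ) * v) := by
    intro n hn m hm
    have hn1 := (Finset.mem_Icc.1 hn).1
    have hm1 := (Finset.mem_Icc.1 hm).1
    have hn0 : (0 : ℝ) < n := by exact_mod_cast hn1
    have hm0 : (0 : ℝ) < m := by exact_mod_cast hm1
    have h1 : Nat.gcd (n * u) (m * v) * Nat.lcm (n * u) (m * v) = (n * u) * (m * v) :=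
      Nat.gcd_mul_lcm _ _
    have hl : 0 < Nat.lcm (n * u) (m * v) :=
      Nat.lcm_pos (Nat.mul_pos hn1 (Nat.pos_of_ne_zero hu0))
        (Nat.mul_pos hm1 (Nat.pos_of_ne_zero hv0))
    have hl0 : (0 : ℝ) < (Nat.lcm (n * u) (m * v) : ℝ) := by exact_mod_cast hl
    have h2 : (Nat.gcd (n * u) (m * v) : ℝ) * (Nat.lcm (n * u) (m * v) : ℝ) =
        (n * u) * (m * v) := by exact_mod_cast h1
    have h3 : (1 : ℝ) / (Nat.lcm (n * u) (m * v) : ℝ) =
        (Nat.gcd (n * u) (m * v) : ℝ) / ((n * u) * (m * v)) := by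
      rw [← h2]
      have hg : (Nat.gcd (n * u) (m * v) : ℝ) ≠ 0 := by
        intro h
        rw [h, zero_mul] at h2
        have : (0 : ℝ) < (n * u) * (m * v) := by positivity
        linarith
      field_simp
    rw [h3]
    have h4 : Nat.gcd (n * u) (m * v) ≤ Nat.gcd n m * Nat.gcd n v * Nat.gcd m u := by
      apply Nat.le_of_dvd
      · exact Nat.mul_pos (Nat.mul_pos (Nat.gcd_pos_of_pos_left _ hn1)
          (Nat.gcd_pos_of_pos_left _ hn1)) (Nat.gcd_pos_of_pos_left _ hm1)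
      · have h5 : Nat.gcd (n * u) (m * v) ∣ Nat.gcd (n * u) m * Nat.gcd (n * u) v :=
          Nat.gcd_mul_right_dvd_mul_gcd _ _ _
        have h6 : Nat.gcd (n * u) m ∣ Nat.gcd n m * Nat.gcd u m := by
          rw [Nat.gcd_comm, Nat.gcd_comm n m, Nat.gcd_comm u m]
          exact Nat.gcd_mul_right_dvd_mul_gcd _ _ _
        have h7 : Nat.gcd (n * u) v ∣ Nat.gcd n v := by
          have h8 : Nat.gcd v (n * u) ∣ Nat.gcd v n * Nat.gcd v u :=
            Nat.gcd_mul_right_dvd_mul_gcd _ _ _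
          rw [Nat.gcd_comm v u, huv, mul_one, Nat.gcd_comm v n, Nat.gcd_comm v (n * u)] at h8
          exact h8
        have h9 := h5.trans (Nat.mul_dvd_mul h6 h7)
        have h10 : Nat.gcd n m * Nat.gcd u m * Nat.gcd n v
            = Nat.gcd n m * Nat.gcd n v * Nat.gcd m u := by
          rw [Nat.gcd_comm u m]; ring
        rwa [h10] at h9
    have h4' : (Nat.gcd (n * u) (m * v) : ℝ) ≤
        (Nat.gcd n m : ℝ) * (Nat.gcd n v : ℝ) * (Nat.gcd m u : ℝ) := by exact_mod_cast h4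
    have h11 : ((Nat.gcd n m : ℝ) * ((Nat.gcd n v : ℝ) / n) * ((Nat.gcd m u : ℝ) / m)) /
        ((u : ℝ) * v) = ((Nat.gcd n m : ℝ) * (Nat.gcd n v : ℝ) * (Nat.gcd m u : ℝ)) /
          ((n * u) * (m * v)) := by
      field_simp
    rw [h11]
    exact div_le_div_of_nonneg_right h4' (by positivity)
  -- the double sum
  have hsum : ∑ n ∈ Icc 1 N, ∑ m ∈ Icc 1 N,
      ((Nat.gcd n m : ℝ) * ((Nat.gcd n v : ℝ) / n) * ((Nat.gcd m u : ℝ) / m)) =
      ∑ g ∈ Icc 1 N, (Nat.totient g : ℝ) *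
        ((∑ n ∈ (Icc 1 N).filter (fun n => g ∣ n), (Nat.gcd n v : ℝ) / n) *
        (∑ m ∈ (Icc 1 N).filter (fun m => g ∣ m), (Nat.gcd m u : ℝ) / m)) := by
    calc ∑ n ∈ Icc 1 N, ∑ m ∈ Icc 1 N,
          ((Nat.gcd n m : ℝ) * ((Nat.gcd n v : ℝ) / n) * ((Nat.gcd m u : ℝ) / m))
        = ∑ n ∈ Icc 1 N, ∑ m ∈ Icc 1 N, ∑ g ∈ Icc 1 N,
            (Nat.totient g : ℝ) * ((if g ∣ n then (Nat.gcd n v : ℝ) / n else 0) *
              (if g ∣ m then (Nat.gcd m u : ℝ) / m else 0)) := by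
          refine Finset.sum_congr rfl fun n hn => Finset.sum_congr rfl fun m hm => ?_
          rw [gcd_eq_sum' N n m (Finset.mem_Icc.1 hn).1 (Finset.mem_Icc.1 hn).2, Finset.sum_mul,
            Finset.sum_mul]
          refine Finset.sum_congr rfl fun g _ => ?_
          by_cases h1 : g ∣ n <;> by_cases h2 : g ∣ m <;> simp [h1, h2]
          ring
      _ = ∑ n ∈ Icc 1 N, ∑ g ∈ Icc 1 N, ∑ m ∈ Icc 1 N,
            (Nat.totient g : ℝ) * ((if g ∣ n then (Nat.gcd n v : ℝ) / n else 0) *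
              (if g ∣ m then (Nat.gcd m u : ℝ) / m else 0)) :=
          Finset.sum_congr rfl fun n _ => Finset.sum_comm
      _ = ∑ g ∈ Icc 1 N, ∑ n ∈ Icc 1 N, ∑ m ∈ Icc 1 N,
            (Nat.totient g : ℝ) * ((if g ∣ n then (Nat.gcd n v : ℝ) / n else 0) *
              (if g ∣ m then (Nat.gcd m u : ℝ) / m else 0)) := Finset.sum_comm
      _ = _ := by
          refine Finset.sum_congr rfl fun g _ => ?_
          rw [Finset.sum_filter, Finset.sum_filter, Finset.sum_mul_sum, Finset.mul_sum]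
          refine Finset.sum_congr rfl fun n _ => ?_
          rw [Finset.mul_sum]
  have hfin : ∑ g ∈ Icc 1 N, (Nat.totient g : ℝ) *
        ((∑ n ∈ (Icc 1 N).filter (fun n => g ∣ n), (Nat.gcd n v : ℝ) / n) *
        (∑ m ∈ (Icc 1 N).filter (fun m => g ∣ m), (Nat.gcd m u : ℝ) / m)) ≤
      AA N (u * v) * (AA N v * AA N u) := by
    calc ∑ g ∈ Icc 1 N, (Nat.totient g : ℝ) *
        ((∑ n ∈ (Icc 1 N).filter (fun n => g ∣ n), (Nat.gcd n v : ℝ) / n) *
        (∑ m ∈ (Icc 1 N).filter (fun m => g ∣ m), (Nat.gcd m u : ℝ) / m))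
        ≤ ∑ g ∈ Icc 1 N, ((Nat.gcd g (u * v) : ℝ) / g) * (AA N v * AA N u) := by
          refine Finset.sum_le_sum fun g hg => ?_
          have hg1 := (Finset.mem_Icc.1 hg).1
          have hg0 : (0 : ℝ) < g := by exact_mod_cast hg1
          have h1 := BB_le N g v hg1 hv0
          have h2 := BB_le N g u hg1 hu0
          have h3 : (0 : ℝ) ≤ ∑ m ∈ (Icc 1 N).filter (fun m => g ∣ m), (Nat.gcd m u : ℝ) / m :=
            Finset.sum_nonneg fun _ _ => by positivity
          have h4 : (0 : ℝ) ≤ (Nat.gcd g v : ℝ) / g * AA N v :=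
            mul_nonneg (by positivity) (AA_nonneg N v)
          have h5 := mul_le_mul h1 h2 h3 h4
          have h6 : (Nat.gcd g (u * v) : ℝ) = (Nat.gcd g u : ℝ) * (Nat.gcd g v : ℝ) := by
            exact_mod_cast huv.gcd_mul g
          have h7 : (Nat.totient g : ℝ) ≤ g := by exact_mod_cast Nat.totient_le g
          calc (Nat.totient g : ℝ) * _ ≤ (g : ℝ) *
                ((Nat.gcd g v : ℝ) / g * AA N v * ((Nat.gcd g u : ℝ) / g * AA N u)) := by
                refine mul_le_mul h7 h5 ?_ hg0.le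
                exact mul_nonneg (Finset.sum_nonneg fun _ _ => by positivity) h3
            _ = ((Nat.gcd g (u * v) : ℝ) / g) * (AA N v * AA N u) := by
                rw [h6]; field_simp
      _ = AA N (u * v) * (AA N v * AA N u) := by
          rw [← Finset.sum_mul]; rfl
  have huvs : Squarefree (u * v) := (Nat.squarefree_mul huv).2 ⟨hu, hv⟩
  have hcard : (u * v).primeFactors.card = u.primeFactors.card + v.primeFactors.card := by
    rw [Nat.Coprime.primeFactors_mul huv, Finset.card_union_of_disjoint huv.disjoint_primeFactors]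
  have hA : AA N (u * v) * (AA N v * AA N u) ≤
      4 ^ (u * v).primeFactors.card * (1 + Real.log N) ^ 3 := by
    have h1 := AA_le N (u * v) huvs
    have h2 := AA_le N v hv
    have h3 := AA_le N u hu
    have h4 := mul_le_mul h1 (mul_le_mul h2 h3 (AA_nonneg N u) (by positivity))
      (mul_nonneg (AA_nonneg N v) (AA_nonneg N u)) (by positivity)
    refine h4.trans (le_of_eq ?_)
    rw [hcard, show (4 : ℝ) = 2 ^ 2 by norm_num, ← pow_mul]
    ring
  calc ∑ n ∈ Icc 1 N, ∑ m ∈ Icc 1 N, (1 : ℝ) / (Nat.lcm (n * u) (m * v) : ℝ)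
      ≤ ∑ n ∈ Icc 1 N, ∑ m ∈ Icc 1 N, ((Nat.gcd n m : ℝ) * ((Nat.gcd n v : ℝ) / n) *
          ((Nat.gcd m u : ℝ) / m)) / ((u : ℝ) * v) :=
        Finset.sum_le_sum fun n hn => Finset.sum_le_sum fun m hm => hpt n hn m hm
    _ = (∑ n ∈ Icc 1 N, ∑ m ∈ Icc 1 N, ((Nat.gcd n m : ℝ) * ((Nat.gcd n v : ℝ) / n) *
          ((Nat.gcd m u : ℝ) / m))) / ((u : ℝ) * v) := by
        rw [Finset.sum_div]
        refine Finset.sum_congr rfl fun n _ => ?_
        rw [Finset.sum_div]
    _ ≤ (4 ^ (u * v).primeFactors.card * (1 + Real.log N) ^ 3) / ((u : ℝ) * v) := by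
        apply div_le_div_of_nonneg_right _ (by positivity)
        rw [hsum]
        exact hfin.trans hA

end Pool.Agent.Y365.OM
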