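import Pool.Agent.Y746.OM.Stm

/-!
# Project OM: averages with the resonator
-/

set_option autoImplicit false

namespace Pool.Agent.Y365.OM

open Finset MeasureTheory Pool.Agent.Y746.OM
open scoped ComplexConjugate

theorem log_gap {a b : ℕ} {M : ℝ} (ha : 1 ≤ a) (hb : 1 ≤ b) (hab : b < a) (haM : (a : ℝ) ≤ M) :
    1 / M ≤ Real.log a - Real.log b := by
  have ha0 : (0 : ℝ) < a := by exact_mod_cast ha
  have hb0 : (0 : ℝ) < b := by exact_mod_cast hb
  have h1 : Real.log ((b : ℝ) / a) ≤ (b : ℝ) / a - 1 := Real.log_le_sub_one_of_pos (by positivity)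
  rw [Real.log_div hb0.ne' ha0.ne'] at h1
  have h2 : (b : ℝ) + 1 ≤ a := by exact_mod_cast hab
  have h3 : (b : ℝ) / a ≤ 1 - 1 / a := by
    rw [le_sub_iff_add_le, ← add_div, div_le_one ha0]
    exact h2
  have h4 : 1 / M ≤ 1 / (a : ℝ) := one_div_le_one_div_of_le ha0 haM
  linarith

theorem log_gap_abs {a b : ℕ} {M : ℝ} (ha : 1 ≤ a) (hb : 1 ≤ b) (hab : a ≠ b) (haM : (a : ℝ) ≤ M)
    (hbM : (b : ℝ) ≤ M) : 1 / M ≤ |Real.log a - Real.log b| := by
  rcases lt_or_gt_of_ne hab with h | h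
  · rw [abs_sub_comm]
    exact (log_gap hb ha h hbM).trans (le_abs_self _)
  · exact (log_gap ha hb h haM).trans (le_abs_self _)

theorem int_exp_le (κ A B M : ℝ) (hM : 0 < M) (hκ : 1 / M ≤ |κ|) :
    ‖∫ t in A..B, Complex.exp ((κ * Complex.I) * (t : ℂ))‖ ≤ 2 * M := by
  have hκ0 : 0 < |κ| := lt_of_lt_of_le (by positivity) hκ
  have hne : (κ : ℂ) * Complex.I ≠ 0 := by
    refine mul_ne_zero ?_ Complex.I_ne_zero
    exact_mod_cast (abs_pos.1 hκ0)
  rw [integral_exp_mul_complex hne, norm_div]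
  have h1 : ∀ x : ℝ, ‖Complex.exp ((κ : ℂ) * Complex.I * (x : ℂ))‖ = 1 := by
    intro x
    rw [show (κ : ℂ) * Complex.I * (x : ℂ) = ((κ * x : ℝ) : ℂ) * Complex.I by push_cast; ring]
    exact Complex.norm_exp_ofReal_mul_I _
  have h2 : ‖Complex.exp ((κ : ℂ) * Complex.I * (B : ℂ)) -
      Complex.exp ((κ : ℂ) * Complex.I * (A : ℂ))‖ ≤ 2 := by
    refine (norm_sub_le _ _).trans ?_
    rw [h1, h1]; norm_num
  have h3 : ‖(κ : ℂ) * Complex.I‖ = |κ| := by
    rw [norm_mul, Complex.norm_I, mul_one, Complex.norm_real, Real.norm_eq_abs]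
  rw [h3, div_le_iff₀ hκ0]
  have h4 : 1 ≤ M * |κ| := by
    rw [div_le_iff₀ hM] at hκ
    linarith
  nlinarith

theorem term_eq {q : ℕ} (hq : 1 ≤ q) (t : ℝ) :
    (q : ℂ) ^ (-((t : ℂ) * Complex.I)) = Complex.exp (-((t * Real.log q : ℝ) : ℂ) * Complex.I) := by
  have hq0 : (q : ℂ) ≠ 0 := by exact_mod_cast (by omega : q ≠ 0)
  rw [Complex.cpow_def_of_ne_zero hq0, ← Complex.natCast_log]
  congr 1
  push_cast
  ring

theorem gen (F : Finset (Finset ℕ)) (c : Finset ℕ → ℂ) (Q : ℝ)
    (hF : ∀ S ∈ F, 1 ≤ qS S ∧ (qS S : ℝ) ≤ Q) (n : ℕ) (hn : 1 ≤ n) (ψ A B : ℝ) (hQ : 1 ≤ Q) :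
    |(∫ t in A..B, ‖∑ S ∈ F, c S * ((qS S : ℕ) : ℂ) ^ (-((t : ℂ) * Complex.I))‖ ^ 2 *
        Real.cos (t * Real.log n - ψ)) -
      (B - A) * (Complex.exp (-(ψ * Complex.I)) * ∑ S ∈ F, ∑ S' ∈ F,
        if qS S = n * qS S' then c S * conj (c S') else 0).re| ≤
      2 * (n * Q) * (∑ S ∈ F, ‖c S‖) ^ 2 := by
  have hn0 : (0 : ℝ) < n := by exact_mod_cast hn
  have hM : 0 < (n : ℝ) * Q := by positivity
  set κ : Finset ℕ → Finset ℕ → ℝ := fun S S' => Real.log n - Real.log (qS S) + Real.log (qS S')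
    with hκ
  set f : ℝ → ℂ := fun t => ∑ S ∈ F, ∑ S' ∈ F, (Complex.exp (-(ψ * Complex.I)) *
    (c S * conj (c S'))) * Complex.exp ((κ S S' * Complex.I) * (t : ℂ)) with hf
  have hcont : ∀ S S' : Finset ℕ, Continuous fun t : ℝ => (Complex.exp (-(ψ * Complex.I)) *
      (c S * conj (c S'))) * Complex.exp ((κ S S' * Complex.I) * (t : ℂ)) := by
    intro S S'
    exact continuous_const.mul (Complex.continuous_exp.comp
      (continuous_const.mul Complex.continuous_ofReal))
  have hfc : Continuous f := by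
    rw [hf]
    exact continuous_finsetSum _ fun S _ => continuous_finsetSum _ fun S' _ => hcont S S'
  -- the integrand is the real part
  have hre : ∀ t : ℝ, ‖∑ S ∈ F, c S * ((qS S : ℕ) : ℂ) ^ (-((t : ℂ) * Complex.I))‖ ^ 2 *
        Real.cos (t * Real.log n - ψ) = (f t).re := by
    intro t
    set E : ℂ := ∑ S ∈ F, c S * ((qS S : ℕ) : ℂ) ^ (-((t : ℂ) * Complex.I)) with hE
    have h1 : ((‖E‖ ^ 2 : ℝ) : ℂ) = E * conj E := by
      rw [Complex.mul_conj']; push_cast; rfl
    have h2 : Real.cos (t * Real.log n - ψ) =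
        (Complex.exp (((t * Real.log n - ψ : ℝ) : ℂ) * Complex.I)).re := by
      rw [Complex.exp_ofReal_mul_I_re]
    have h3 : ‖E‖ ^ 2 * Real.cos (t * Real.log n - ψ) =
        (((‖E‖ ^ 2 : ℝ) : ℂ) * Complex.exp (((t * Real.log n - ψ : ℝ) : ℂ) * Complex.I)).re := by
      rw [Complex.re_ofReal_mul, ← h2]
    rw [h3, h1]
    congr 1
    have hEs : E = ∑ S ∈ F, c S * Complex.exp (-((t * Real.log (qS S) : ℝ) : ℂ) * Complex.I) := by
      rw [hE]
      refine Finset.sum_congr rfl fun S hS => ?_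
      rw [term_eq (hF S hS).1 t]
    have hEc : conj E = ∑ S' ∈ F, conj (c S') *
        Complex.exp (((t * Real.log (qS S') : ℝ) : ℂ) * Complex.I) := by
      rw [hEs, map_sum]
      refine Finset.sum_congr rfl fun S hS => ?_
      rw [map_mul, ← Complex.exp_conj, map_mul, map_neg, Complex.conj_ofReal, Complex.conj_I]
      congr 2
      ring
    rw [hEc, hEs, Finset.sum_mul_sum, Finset.sum_mul]
    simp only [hf]
    refine Finset.sum_congr rfl fun S _ => ?_
    rw [Finset.sum_mul]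
    refine Finset.sum_congr rfl fun S' _ => ?_
    have h4 : c S * Complex.exp (-((t * Real.log (qS S) : ℝ) : ℂ) * Complex.I) *
        (conj (c S') * Complex.exp (((t * Real.log (qS S') : ℝ) : ℂ) * Complex.I)) *
        Complex.exp (((t * Real.log n - ψ : ℝ) : ℂ) * Complex.I) =
        (c S * conj (c S')) * (Complex.exp (-((t * Real.log (qS S) : ℝ) : ℂ) * Complex.I) *
          Complex.exp (((t * Real.log (qS S') : ℝ) : ℂ) * Complex.I) *
          Complex.exp (((t * Real.log n - ψ : ℝ) : ℂ) * Complex.I)) := by ring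
    have h5 : Complex.exp (-(ψ * Complex.I)) * (c S * conj (c S')) *
        Complex.exp ((κ S S' * Complex.I) * (t : ℂ)) = (c S * conj (c S')) *
        (Complex.exp (-(ψ * Complex.I)) * Complex.exp ((κ S S' * Complex.I) * (t : ℂ))) := by ring
    rw [h4, h5, ← Complex.exp_add, ← Complex.exp_add, ← Complex.exp_add]
    congr 2
    simp only [hκ]
    push_cast
    ring
  have hint : (∫ t in A..B, ‖∑ S ∈ F, c S * ((qS S : ℕ) : ℂ) ^ (-((t : ℂ) * Complex.I))‖ ^ 2 *
        Real.cos (t * Real.log n - ψ)) = (∫ t in A..B, f t).re := by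
    simp_rw [hre]
    exact Complex.reCLM.intervalIntegral_comp_comm (hfc.intervalIntegrable A B)
  have hsum : ∫ t in A..B, f t = ∑ S ∈ F, ∑ S' ∈ F, (Complex.exp (-(ψ * Complex.I)) *
      (c S * conj (c S'))) * ∫ t in A..B, Complex.exp ((κ S S' * Complex.I) * (t : ℂ)) := by
    simp only [hf]
    rw [intervalIntegral.integral_finsetSum]
    · refine Finset.sum_congr rfl fun S _ => ?_
      rw [intervalIntegral.integral_finsetSum]
      · refine Finset.sum_congr rfl fun S' _ => ?_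
        rw [intervalIntegral.integral_const_mul]
      · intro S' _
        exact (hcont S S').intervalIntegrable A B
    · intro S _
      exact (continuous_finsetSum _ fun S' _ => hcont S S').intervalIntegrable A B
  have hmain : (((B - A : ℝ) : ℂ) * (Complex.exp (-(ψ * Complex.I)) * ∑ S ∈ F, ∑ S' ∈ F,
        if qS S = n * qS S' then c S * conj (c S') else 0)) =
      ∑ S ∈ F, ∑ S' ∈ F, (Complex.exp (-(ψ * Complex.I)) * (c S * conj (c S'))) *
        (if qS S = n * qS S' then ((B - A : ℝ) : ℂ) else 0) := by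
    rw [Finset.mul_sum, Finset.mul_sum]
    refine Finset.sum_congr rfl fun S _ => ?_
    rw [Finset.mul_sum, Finset.mul_sum]
    refine Finset.sum_congr rfl fun S' _ => ?_
    split_ifs <;> ring
  rw [hint, ← Complex.re_ofReal_mul, ← Complex.sub_re, hsum, hmain]
  refine (Complex.abs_re_le_norm _).trans ?_
  rw [← Finset.sum_sub_distrib]
  have hterm : ∀ S ∈ F, ∀ S' ∈ F, ‖(Complex.exp (-(ψ * Complex.I)) * (c S * conj (c S'))) *
      (∫ t in A..B, Complex.exp ((κ S S' * Complex.I) * (t : ℂ))) -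
      (Complex.exp (-(ψ * Complex.I)) * (c S * conj (c S'))) *
        (if qS S = n * qS S' then ((B - A : ℝ) : ℂ) else 0)‖ ≤
      2 * (n * Q) * (‖c S‖ * ‖c S'‖) := by
    intro S hS S' hS'
    obtain ⟨hS1, hS2⟩ := hF S hS
    obtain ⟨hS'1, hS'2⟩ := hF S' hS'
    have hq0 : (0 : ℝ) < qS S' := by exact_mod_cast hS'1
    have hlogmul : Real.log ((n * qS S' : ℕ) : ℝ) = Real.log n + Real.log (qS S') := by
      push_cast
      rw [Real.log_mul hn0.ne' hq0.ne']
    rw [← mul_sub, norm_mul, norm_mul, norm_mul, Complex.norm_conj]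
    have h1 : ‖Complex.exp (-((ψ : ℂ) * Complex.I))‖ = 1 := by
      rw [show -((ψ : ℂ) * Complex.I) = ((-ψ : ℝ) : ℂ) * Complex.I by push_cast; ring]
      exact Complex.norm_exp_ofReal_mul_I _
    rw [h1, one_mul]
    have h2 : ‖(∫ t in A..B, Complex.exp ((κ S S' * Complex.I) * (t : ℂ))) -
        (if qS S = n * qS S' then ((B - A : ℝ) : ℂ) else 0)‖ ≤ 2 * (n * Q) := by
      by_cases h : qS S = n * qS S'
      · have hk0 : κ S S' = 0 := by
          simp only [hκ]
          have h3 : Real.log (qS S : ℝ) = Real.log n + Real.log (qS S') := by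
            rw [h]; exact hlogmul
          rw [h3]; ring
        rw [if_pos h, hk0]
        simp only [Complex.ofReal_zero, zero_mul, Complex.exp_zero,
          intervalIntegral.integral_const]
        have : ((B - A) • (1 : ℂ)) - ((B - A : ℝ) : ℂ) = 0 := by
          rw [Complex.real_smul, mul_one, sub_self]
        rw [this, norm_zero]
        positivity
      · rw [if_neg h, sub_zero]
        apply int_exp_le _ _ _ _ hM
        have h3 := log_gap_abs (a := n * qS S') (b := qS S) (M := n * Q)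
          (Nat.mul_pos hn hS'1) hS1 (fun h' => h h'.symm)
          (by push_cast; exact mul_le_mul_of_nonneg_left hS'2 hn0.le)
          (by
            have h5 : (1 : ℝ) ≤ n := by exact_mod_cast hn
            nlinarith)
        rw [hlogmul] at h3
        have h4 : κ S S' = Real.log n + Real.log (qS S') - Real.log (qS S) := by
          simp only [hκ]; ring
        rw [h4]
        exact h3
    calc ‖c S‖ * ‖c S'‖ * _ ≤ ‖c S‖ * ‖c S'‖ * (2 * (n * Q)) :=
          mul_le_mul_of_nonneg_left h2 (by positivity)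
      _ = _ := by ring
  calc ‖∑ S ∈ F, ((∑ S' ∈ F, (Complex.exp (-(ψ * Complex.I)) * (c S * conj (c S'))) *
        ∫ t in A..B, Complex.exp ((κ S S' * Complex.I) * (t : ℂ))) -
        ∑ S' ∈ F, (Complex.exp (-(ψ * Complex.I)) * (c S * conj (c S'))) *
        (if qS S = n * qS S' then ((B - A : ℝ) : ℂ) else 0))‖
      ≤ ∑ S ∈ F, ∑ S' ∈ F, 2 * (n * Q) * (‖c S‖ * ‖c S'‖) := by
        refine (norm_sum_le _ _).trans (Finset.sum_le_sum fun S hS => ?_)
        rw [← Finset.sum_sub_distrib]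
        exact (norm_sum_le _ _).trans (Finset.sum_le_sum fun S' hS' => hterm S hS S' hS')
    _ = 2 * (n * Q) * (∑ S ∈ F, ‖c S‖) ^ 2 := by
        rw [sq, Finset.sum_mul_sum, Finset.mul_sum]
        refine Finset.sum_congr rfl fun S _ => ?_
        rw [Finset.mul_sum]

/-! ### sets of primes -/

theorem qS_pos {P : Finset ℕ} (hP : ∀ p ∈ P, p.Prime) {S : Finset ℕ} (hS : S ⊆ P) : 1 ≤ qS S :=
  Finset.prod_pos fun p hp => (hP p (hS hp)).pos

theorem qS_inj {P : Finset ℕ} (hP : ∀ p ∈ P, p.Prime) {S S' : Finset ℕ} (hS : S ⊆ P)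
    (hS' : S' ⊆ P) (h : qS S = qS S') : S = S' := by
  have h1 : (qS S).primeFactors = S := Nat.primeFactors_prod fun p hp => hP p (hS hp)
  have h2 : (qS S').primeFactors = S' := Nat.primeFactors_prod fun p hp => hP p (hS' hp)
  rw [← h1, ← h2, h]

theorem mem_FS {P S : Finset ℕ} {Q : ℝ} : S ∈ FS P Q ↔ S ⊆ P ∧ (qS S : ℝ) ≤ Q := by
  unfold FS
  rw [Finset.mem_filter, Finset.mem_powerset]

theorem card_FS {P : Finset ℕ} (hP : ∀ p ∈ P, p.Prime) {Q : ℝ} (hQ : 1 ≤ Q) :
    ((FS P Q).card : ℝ) ≤ Q := by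
  have h1 : (FS P Q).card ≤ (Finset.Icc 1 ⌊Q⌋₊).card := by
    apply Finset.card_le_card_of_injOn qS
    · intro S hS
      rw [Finset.mem_coe, mem_FS] at hS
      rw [Finset.mem_coe, Finset.mem_Icc]
      exact ⟨qS_pos hP hS.1, Nat.le_floor hS.2⟩
    · intro S hS S' hS' h
      rw [Finset.mem_coe, mem_FS] at hS hS'
      exact qS_inj hP hS.1 hS'.1 h
  rw [Nat.card_Icc, Nat.add_sub_cancel] at h1
  calc ((FS P Q).card : ℝ) ≤ (⌊Q⌋₊ : ℝ) := by exact_mod_cast h1
    _ ≤ Q := Nat.floor_le (by linarith)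

theorem norm_yc {P : Finset ℕ} {r : ℕ → ℝ} (hr : ∀ p ∈ P, 0 ≤ r p) (φ : ℕ → ℝ) {S : Finset ℕ}
    (hS : S ⊆ P) : ‖yc r φ S‖ = ∏ p ∈ S, r p := by
  unfold yc
  rw [norm_prod]
  refine Finset.prod_congr rfl fun p hp => ?_
  rw [norm_mul, Complex.norm_exp_ofReal_mul_I, mul_one, Complex.norm_real, Real.norm_eq_abs,
    abs_of_nonneg (hr p (hS hp))]

theorem yc_sq {P : Finset ℕ} {r : ℕ → ℝ} (hr : ∀ p ∈ P, 0 ≤ r p) (φ : ℕ → ℝ) {S : Finset ℕ}
    (hS : S ⊆ P) : yc r φ S * conj (yc r φ S) = ((∏ p ∈ S, r p ^ 2 : ℝ) : ℂ) := by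
  rw [Complex.mul_conj', norm_yc hr φ hS, ← Complex.ofReal_pow, Finset.prod_pow]

theorem sum_sq_le {P : Finset ℕ} (hP : ∀ p ∈ P, p.Prime) {r : ℕ → ℝ} (hr : ∀ p ∈ P, 0 ≤ r p)
    (φ : ℕ → ℝ) {Q : ℝ} (hQ : 1 ≤ Q) :
    (∑ S ∈ FS P Q, ‖yc r φ S‖) ^ 2 ≤ Q * N0 P r Q := by
  refine (sq_sum_le_card_mul_sum_sq).trans ?_
  have h1 : ∑ S ∈ FS P Q, ‖yc r φ S‖ ^ 2 = N0 P r Q := by
    unfold N0
    refine Finset.sum_congr rfl fun S hS => ?_
    rw [norm_yc hr φ (mem_FS.1 hS).1, Finset.prod_pow]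
  rw [h1]
  have h2 : 0 ≤ N0 P r Q := Finset.sum_nonneg fun S _ => Finset.prod_nonneg fun p _ => sq_nonneg _
  exact mul_le_mul_of_nonneg_right (card_FS hP hQ) h2

theorem mem_of_dvd {P : Finset ℕ} (hP : ∀ p ∈ P, p.Prime) {S : Finset ℕ} (hS : S ⊆ P) {p : ℕ}
    (hp : p.Prime) (h : p ∣ qS S) : p ∈ S := by
  unfold qS at h
  rw [(Nat.Prime.prime hp).dvd_finset_prod_iff] at h
  obtain ⟨q, hq, hpq⟩ := h
  rw [(Nat.prime_dvd_prime_iff_eq hp (hP q (hS hq))).1 hpq]
  exact hq

theorem res_pair {P : Finset ℕ} (hP : ∀ p ∈ P, p.Prime) {n : ℕ} (hn : IsPrimePow n)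
    {S S' : Finset ℕ} (hS : S ⊆ P) (hS' : S' ⊆ P) (h : qS S = n * qS S') :
    n ∈ P ∧ n ∉ S' ∧ S = insert n S' := by
  classical
  obtain ⟨p, k, hp, hk, rfl⟩ := (isPrimePow_nat_iff n).1 hn
  have h1 : p ∣ qS S := by
    rw [h]
    exact (dvd_pow_self p (by omega)).mul_right _
  have hpS : p ∈ S := mem_of_dvd hP hS hp h1
  have h2 : qS S = p * qS (S.erase p) := by
    unfold qS
    rw [Finset.mul_prod_erase S (fun x => x) hpS]
  have hk1 : k = 1 := by
    by_contra hk1
    have h3 : p ^ 2 ∣ qS S := by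
      rw [h]
      exact (pow_dvd_pow p (by omega)).mul_right _
    rw [h2, sq] at h3
    have h4 : p ∣ qS (S.erase p) := Nat.dvd_of_mul_dvd_mul_left hp.pos h3
    have h5 := mem_of_dvd hP ((Finset.erase_subset p S).trans hS) hp h4
    exact Finset.notMem_erase p S h5
  subst hk1
  rw [pow_one] at h ⊢
  have h6 : qS (S.erase p) = qS S' := by
    rw [h2] at h
    exact Nat.eq_of_mul_eq_mul_left hp.pos h
  have h7 : S.erase p = S' := qS_inj hP ((Finset.erase_subset p S).trans hS) hS' h6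
  refine ⟨hS hpS, ?_, ?_⟩
  · rw [← h7]; exact Finset.notMem_erase p S
  · rw [← h7, Finset.insert_erase hpS]

theorem t_PR : S_PR := by
  classical
  intro P r φ Q A B hP hr hQ hAB
  have hF : ∀ S ∈ FS P Q, 1 ≤ qS S ∧ (qS S : ℝ) ≤ Q := fun S hS =>
    ⟨qS_pos hP (mem_FS.1 hS).1, (mem_FS.1 hS).2⟩
  have hsq := sum_sq_le hP hr φ hQ
  constructor
  · have h := gen (FS P Q) (yc r φ) Q hF 1 le_rfl 0 A B hQ
    have h1 : (∫ t in A..B, ‖∑ S ∈ FS P Q, yc r φ S *
        ((qS S : ℕ) : ℂ) ^ (-((t : ℂ) * Complex.I))‖ ^ 2 *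
        Real.cos (t * Real.log (1 : ℕ) - 0)) =
        ∫ t in A..B, ‖RS P Q (yc r φ) ((t : ℂ) * Complex.I)‖ ^ 2 := by
      refine intervalIntegral.integral_congr fun t _ => ?_
      simp [RS]
    have h2 : (Complex.exp (-(((0 : ℝ) : ℂ) * Complex.I)) * ∑ S ∈ FS P Q, ∑ S' ∈ FS P Q,
        if qS S = 1 * qS S' then yc r φ S * conj (yc r φ S') else 0).re = N0 P r Q := by
      have h3 : ∑ S ∈ FS P Q, ∑ S' ∈ FS P Q,
          (if qS S = 1 * qS S' then yc r φ S * conj (yc r φ S') else 0) =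
          ∑ S ∈ FS P Q, ((∏ p ∈ S, r p ^ 2 : ℝ) : ℂ) := by
        refine Finset.sum_congr rfl fun S hS => ?_
        rw [Finset.sum_eq_single S]
        · rw [if_pos (one_mul _).symm, yc_sq hr φ (mem_FS.1 hS).1]
        · intro S' hS' hne
          rw [if_neg]
          intro h4
          rw [one_mul] at h4
          exact hne (qS_inj hP (mem_FS.1 hS).1 (mem_FS.1 hS').1 h4).symm
        · intro h4; exact (h4 hS).elim
      rw [h3, Complex.ofReal_zero, zero_mul, neg_zero, Complex.exp_zero, one_mul,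
        ← Complex.ofReal_sum, Complex.ofReal_re]
      rfl
    rw [h1, h2] at h
    refine h.trans ?_
    rw [Nat.cast_one, one_mul]
    nlinarith
  · intro n ψ hn
    have hn1 : 1 ≤ n := hn.one_lt.le
    have hn0 : (0 : ℝ) < n := by exact_mod_cast hn1
    have h := gen (FS P Q) (yc r φ) Q hF n hn1 ψ A B hQ
    have h1 : (∫ t in A..B, ‖∑ S ∈ FS P Q, yc r φ S *
        ((qS S : ℕ) : ℂ) ^ (-((t : ℂ) * Complex.I))‖ ^ 2 *
        Real.cos (t * Real.log n - ψ)) =
        ∫ t in A..B, ‖RS P Q (yc r φ) ((t : ℂ) * Complex.I)‖ ^ 2 *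
          Real.cos (t * Real.log n - ψ) := rfl
    have h2 : (B - A) * (Complex.exp (-(ψ * Complex.I)) * ∑ S ∈ FS P Q, ∑ S' ∈ FS P Q,
        if qS S = n * qS S' then yc r φ S * conj (yc r φ S') else 0).re =
        if n ∈ P then (B - A) * (r n * Real.cos (φ n - ψ) * N1 P r Q n) else 0 := by
      by_cases hnP : n ∈ P
      · rw [if_pos hnP]
        congr 1
        have h3 : ∑ S ∈ FS P Q, ∑ S' ∈ FS P Q,
            (if qS S = n * qS S' then yc r φ S * conj (yc r φ S') else 0) =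
            ∑ S' ∈ (FS P (Q / n)).filter (fun S => n ∉ S),
              ((r n : ℂ) * Complex.exp ((φ n : ℂ) * Complex.I)) *
                ((∏ p ∈ S', r p ^ 2 : ℝ) : ℂ) := by
          rw [Finset.sum_comm]
          have hsub : (FS P (Q / n)).filter (fun S => n ∉ S) ⊆ FS P Q := by
            intro S' hS'
            rw [Finset.mem_filter, mem_FS] at hS'
            rw [mem_FS]
            refine ⟨hS'.1.1, hS'.1.2.trans ?_⟩
            rw [div_le_iff₀ hn0]
            have : (1 : ℝ) ≤ n := by exact_mod_cast hn1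
            nlinarith
          rw [← Finset.sum_subset hsub]
          · refine Finset.sum_congr rfl fun S' hS' => ?_
            rw [Finset.mem_filter, mem_FS] at hS'
            obtain ⟨⟨hS'1, hS'2⟩, hnS'⟩ := hS'
            have hins : insert n S' ⊆ P := Finset.insert_subset hnP hS'1
            have hq : qS (insert n S') = n * qS S' := by
              unfold qS
              rw [Finset.prod_insert hnS']
            have hmem : insert n S' ∈ FS P Q := by
              rw [mem_FS]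
              refine ⟨hins, ?_⟩
              rw [hq]
              push_cast
              rw [le_div_iff₀ hn0] at hS'2
              linarith
            rw [Finset.sum_eq_single (insert n S')]
            · rw [if_pos hq]
              have hy : yc r φ (insert n S') =
                  ((r n : ℂ) * Complex.exp ((φ n : ℂ) * Complex.I)) * yc r φ S' := by
                unfold yc
                rw [Finset.prod_insert hnS']
              rw [hy, mul_assoc, yc_sq hr φ hS'1]
            · intro S hS hne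
              rw [if_neg]
              intro h4
              exact hne (res_pair hP hn (mem_FS.1 hS).1 hS'1 h4).2.2
            · intro h4; exact (h4 hmem).elim
          · intro S' hS' hnot
            refine Finset.sum_eq_zero fun S hS => ?_
            rw [if_neg]
            intro h4
            obtain ⟨-, h5, h6⟩ := res_pair hP hn (mem_FS.1 hS).1 (mem_FS.1 hS').1 h4
            apply hnot
            rw [Finset.mem_filter, mem_FS]
            refine ⟨⟨(mem_FS.1 hS').1, ?_⟩, h5⟩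
            rw [le_div_iff₀ hn0]
            have h7 := (mem_FS.1 hS).2
            rw [h4] at h7
            push_cast at h7
            linarith
        rw [h3, ← Finset.mul_sum, ← Complex.ofReal_sum]
        have h8 : Complex.exp (-((ψ : ℂ) * Complex.I)) *
            ((r n : ℂ) * Complex.exp ((φ n : ℂ) * Complex.I) *
            ((∑ S' ∈ (FS P (Q / n)).filter (fun S => n ∉ S), ∏ p ∈ S', r p ^ 2 : ℝ) : ℂ)) =
            ((r n * ∑ S' ∈ (FS P (Q / n)).filter (fun S => n ∉ S), ∏ p ∈ S', r p ^ 2 : ℝ) : ℂ) *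
              Complex.exp (((φ n - ψ : ℝ) : ℂ) * Complex.I) := by
          have h9 : Complex.exp (((φ n - ψ : ℝ) : ℂ) * Complex.I) =
              Complex.exp (-((ψ : ℂ) * Complex.I)) * Complex.exp ((φ n : ℂ) * Complex.I) := by
            rw [← Complex.exp_add]
            congr 1
            push_cast
            ring
          rw [h9]
          push_cast
          ring
        rw [h8, Complex.re_ofReal_mul, Complex.exp_ofReal_mul_I_re]
        unfold N1
        ring
      · rw [if_neg hnP]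
        have h3 : ∑ S ∈ FS P Q, ∑ S' ∈ FS P Q,
            (if qS S = n * qS S' then yc r φ S * conj (yc r φ S') else 0) = 0 := by
          refine Finset.sum_eq_zero fun S hS => Finset.sum_eq_zero fun S' hS' => ?_
          rw [if_neg]
          intro h4
          exact hnP (res_pair hP hn (mem_FS.1 hS).1 (mem_FS.1 hS').1 h4).1
        rw [h3]; simp
    rw [h2, h1] at h
    refine h.trans ?_
    have h10 : 0 ≤ 2 * ((n : ℝ) * Q) := by positivity
    calc 2 * ((n : ℝ) * Q) * (∑ S ∈ FS P Q, ‖yc r φ S‖) ^ 2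
        ≤ 2 * ((n : ℝ) * Q) * (Q * N0 P r Q) := mul_le_mul_of_nonneg_left hsq h10
      _ = 2 * n * Q ^ 2 * N0 P r Q := by ring

end Pool.Agent.Y365.OM
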